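import Mathlib
import Pool.Agent.Helper36.SecConv

/-!
Norm obstruction to sections of the fundamental exact sequence.

`k` is a field of characteristic zero, `K` an extension field of `k` (for instance the function
field of a smooth projective geometrically connected curve `X` over `k`), `Ω` an algebraic closure
of `K`.  `univCover k K Ω` is the compositum of all finite extensions of `K` in `Ω` unramified at
all discrete valuations trivial on `k` (the function field of the universal pro-etale cover of
`X`) and `PiOneSection k K Ω` is the type of sections of the fundamental exact sequence.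
-/

namespace Pool.Agent.Results.MP_896029_ag.NormObstruction

open Pool.Agent.Helper36

/-- Let `kᵢ` be finite extensions of `k` in `Ω` and `gᵢ` nonzero elements of the compositum `K kᵢ`
whose divisor is divisible by `n`.  Suppose that `c ∈ k`, `c ≠ 0`, and
`c * ∏ᵢ N(gᵢ) ^ eᵢ = y ^ n` with `y ∈ K`, `N` the norm from `K kᵢ` to `K`.  If the fundamental
exact sequence has a section, then `c * ∏ᵢ N(δᵢ) ^ eᵢ = u ^ n` for some nonzero `δᵢ ∈ kᵢ` and
`u ∈ k`. -/
theorem result {k K Ω : Type*} [Field k] [CharZero k] [Field K] [Field Ω] [Algebra k K]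
    [Algebra K Ω] [Algebra k Ω] [IsScalarTower k K Ω] [IsAlgClosure K Ω]
    {I : Type*} [Fintype I] (k' : I → IntermediateField k Ω) [∀ i, FiniteDimensional k (k' i)]
    (n : ℕ) (hn : n ≠ 0) (g : ∀ i, Compositum K (k' i)) (hg : ∀ i, g i ≠ 0)
    (hdiv : ∀ i, DivisorDivisible k n (g i))
    (e : I → ℤ) (c : k) (hc : c ≠ 0) (y : K)
    (hcy : algebraMap k K c * ∏ i, (normComp K (k' i) (g i)) ^ e i = y ^ n)
    (s : PiOneSection k K Ω) : IsNormPower k' n e c := by
  have h1 : IsAlgClosed Ω := IsAlgClosure.isAlgClosed K
  have h2 : Algebra.IsAlgebraic K Ω := IsAlgClosure.isAlgebraic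
  exact norm_obstruction s.toData k' hn g hg (fun i v hv => hdiv i v hv) e c hc y hcy

end Pool.Agent.Results.MP_896029_ag.NormObstruction
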