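import Mathlib
import Pool.Agent.Helper36.SecConv
import Pool.Agent.Helper36.Superelliptic

/-!
Superelliptic curves without sections of the fundamental exact sequence.
-/

namespace Pool.Agent.Results.MP_896029_ag.Superelliptic

open Pool.Agent.Helper36 Polynomial

/-- Let `k` be a field of characteristic zero, `kᵢ / k` finitely many finite extensions,
`fᵢ ∈ kᵢ[X]` of degree divisible by `n`, `Pᵢ ∈ k[X]` the norm of `fᵢ` (the product of the
conjugates of `fᵢ`), `∏ᵢ Pᵢ` squarefree, `eᵢ` integers prime to `n` and `c ∈ k`, `c ≠ 0`.  Let `K`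
be an extension field of `k` containing `x`, `y` with `c * ∏ᵢ Pᵢ(x) ^ eᵢ = y ^ n` and
`Pᵢ(x) ≠ 0`, for instance the function field of this superelliptic curve.
If `c` is not in `k*ⁿ ∏ᵢ N(kᵢ*) ^ eᵢ`, then the fundamental exact sequence of `K` over `k` has no
section. -/
theorem result {k K Ω : Type*} [Field k] [CharZero k] [Field K] [Field Ω] [Algebra k K]
    [Algebra K Ω] [Algebra k Ω] [IsScalarTower k K Ω] [IsAlgClosure K Ω]
    {I : Type*} [Fintype I] (k' : I → IntermediateField k Ω) [∀ i, FiniteDimensional k (k' i)]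
    (n : ℕ) (hn : n ≠ 0) (P : I → k[X]) (hP : ∀ i, IsNormPoly n (k' i) (P i))
    (hsq : Squarefree (∏ i, P i)) (e : I → ℤ) (he : ∀ i, IsCoprime (e i) (n : ℤ))
    (c : k) (hc : c ≠ 0) (x y : K) (hPx : ∀ i, aeval x (P i) ≠ 0)
    (hxy : algebraMap k K c * ∏ i, (aeval x (P i)) ^ e i = y ^ n)
    (hno : ¬ IsNormPower k' n e c) :
    IsEmpty (PiOneSection k K Ω) := by
  have h1 : IsAlgClosed Ω := IsAlgClosure.isAlgClosed K
  have h2 : Algebra.IsAlgebraic K Ω := IsAlgClosure.isAlgebraic
  choose f hf hfP using hP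
  exact ⟨fun s => hno
    (superelliptic_obstruction s.toData k' hn f hf P hfP hsq e he c hc x y hPx hxy)⟩

end Pool.Agent.Results.MP_896029_ag.Superelliptic
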